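import Pool.Agent.helper96.Slope.Defs

/-!
# Slopes, module NC: few tuples of the family are not pairwise coprime
-/

namespace Pool.Agent.helper96.Slope

open Finset

/-- elements of an interval of length `L`, pairwise congruent modulo `q`. -/
lemma nc_card_le (S : Finset ℕ) (A L q : ℕ) (_hq : 0 < q) (hS : S ⊆ Ioc A (A + L))
    (hc : ∀ x ∈ S, ∀ y ∈ S, x ≡ y [MOD q]) : #S ≤ L / q + 1 := by
  have h1 : ∀ x ∈ S, (x - A - 1) / q ∈ range (L / q + 1) := by
    intro x hx
    have := mem_Ioc.1 (hS hx)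
    rw [mem_range, Nat.lt_succ_iff]
    exact Nat.div_le_div_right (by omega)
  have h2 : Set.InjOn (fun x => (x - A - 1) / q) (S : Set ℕ) := by
    intro x hx y hy hxy
    have hx1 := mem_Ioc.1 (hS hx)
    have hy1 := mem_Ioc.1 (hS hy)
    have h3 : x - A - 1 ≡ y - A - 1 [MOD q] := by
      have h4 : (x - A - 1) + (A + 1) ≡ (y - A - 1) + (A + 1) [MOD q] := by
        have e1 : (x - A - 1) + (A + 1) = x := by omega
        have e2 : (y - A - 1) + (A + 1) = y := by omega
        rw [e1, e2]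
        exact hc x hx y hy
      exact Nat.ModEq.add_right_cancel' _ h4
    have h5 : (x - A - 1) / q = (y - A - 1) / q := hxy
    have h6 : (x - A - 1) % q = (y - A - 1) % q := h3
    have h7 : x - A - 1 = y - A - 1 := by
      rw [← Nat.div_add_mod (x - A - 1) q, ← Nat.div_add_mod (y - A - 1) q, h5, h6]
    omega
  have := card_le_card_of_injOn _ h1 h2
  rwa [card_range] at this

lemma nc_card_fam (A P : ℕ) (hP : 2 ≤ P) : A / P - 1 ≤ #(fam A P) := by
  have h1 : ∀ m ∈ range (A / P - 1), P * (A / P + 1 + m) + 1 ∈ fam A P := by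
    intro m hm
    rw [mem_range] at hm
    unfold fam
    rw [mem_filter, mem_Ioc]
    have h2 : P * (A / P) ≤ A := Nat.mul_div_le A P
    have h3 : A < P * (A / P + 1) := by
      have := Nat.lt_mul_div_succ A (by omega : 0 < P)
      exact this
    refine ⟨⟨?_, ?_⟩, ?_⟩
    · have : P * (A / P + 1 + m) = P * (A / P + 1) + P * m := by ring
      omega
    · have h4 : A / P + 1 + m ≤ 2 * (A / P) - 1 := by omega
      have h5 : P * (A / P + 1 + m) ≤ P * (2 * (A / P) - 1) := Nat.mul_le_mul_left _ h4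
      have h6 : P * (2 * (A / P) - 1) = 2 * (P * (A / P)) - P := by
        rw [Nat.mul_sub, mul_one]
        congr 1
        ring
      have h7 : P ≤ P * (A / P) := by
        have : 1 ≤ A / P := by omega
        nlinarith
      omega
    · rw [Nat.add_mod, Nat.mul_mod_right, zero_add, Nat.mod_mod]
      exact Nat.mod_eq_of_lt (by omega)
  have h2 : Set.InjOn (fun m => P * (A / P + 1 + m) + 1) (range (A / P - 1) : Set ℕ) := by
    intro x _ y _ hxy
    have h3 : P * (A / P + 1 + x) + 1 = P * (A / P + 1 + y) + 1 := hxy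
    have h4 : P * (A / P + 1 + x) = P * (A / P + 1 + y) := by omega
    have := Nat.eq_of_mul_eq_mul_left (by omega) h4
    omega
  have := card_le_card_of_injOn _ h1 h2
  rwa [card_range] at this

lemma nc_card_fam_real (A P : ℕ) (hP : 2 ≤ P) (hA : 4 * P ≤ A) :
    (A : ℝ) / (2 * P) ≤ #(fam A P) := by
  have h1 := nc_card_fam A P hP
  have hP0 : (0 : ℝ) < P := by exact_mod_cast (by omega : 0 < P)
  have h2 : A < P * (A / P + 1) := Nat.lt_mul_div_succ A (by omega : 0 < P)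
  have h3 : A ≤ P * (#(fam A P) + 2) := by
    have h4 : A / P + 1 ≤ #(fam A P) + 2 := by omega
    exact h2.le.trans (Nat.mul_le_mul_left _ h4)
  have h5 : (A : ℝ) ≤ P * (#(fam A P) + 2) := by exact_mod_cast h3
  have h6 : (4 * P : ℝ) ≤ A := by exact_mod_cast hA
  rw [div_le_iff₀ (by positivity)]
  nlinarith

open Classical in
lemma nc_pairs (W P A : ℕ) (hW : 1 ≤ W) (hP : ∀ p, p.Prime → p ≤ W → p ∣ P) (hP2 : 2 ≤ P)
    (hA : 4 * P ≤ A) :
    (#{z ∈ fam A P ×ˢ fam A P | z.1 ≠ z.2 ∧ ¬ Nat.Coprime z.1 z.2} : ℝ)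
      ≤ 16 * (#(fam A P) : ℝ) ^ 2 / W := by
  have hP0 : (0 : ℝ) < P := by exact_mod_cast (by omega : 0 < P)
  have hA0 : (0 : ℝ) < A := by exact_mod_cast (by omega : 0 < A)
  have hW0 : (0 : ℝ) < W := by exact_mod_cast (by omega : 0 < W)
  set F := fam A P with hF
  have hsub : {z ∈ F ×ˢ F | z.1 ≠ z.2 ∧ ¬ Nat.Coprime z.1 z.2}
      ⊆ (Ioc W (A / P)).biUnion fun l => if Nat.Coprime l P then
          {x ∈ F | l ∣ x} ×ˢ {x ∈ F | l ∣ x} else ∅ := by
    intro z hz
    rw [mem_filter, mem_product] at hz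
    obtain ⟨⟨hx, hy⟩, hne, hnc⟩ := hz
    obtain ⟨l, hl, hlx, hly⟩ := Nat.Prime.not_coprime_iff_dvd.1 hnc
    have hx1 := hx
    have hy1 := hy
    rw [hF] at hx1 hy1
    unfold fam at hx1 hy1
    rw [mem_filter, mem_Ioc] at hx1 hy1
    have hlP : ¬ l ∣ P := by
      intro h
      have h1 : z.1 % P = 1 := hx1.2
      have h2 : l ∣ z.1 % P := (Nat.dvd_mod_iff h).2 hlx
      rw [h1] at h2
      exact hl.one_lt.ne' (Nat.dvd_one.1 h2)
    have hcop : Nat.Coprime l P := (Nat.Prime.coprime_iff_not_dvd hl).2 hlP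
    have hlW : W < l := by
      by_contra h
      exact hlP (hP l hl (by omega))
    have hmod : z.1 ≡ z.2 [MOD P] := by
      show z.1 % P = z.2 % P
      rw [hx1.2, hy1.2]
    have hlA : l ≤ A / P := by
      rw [Nat.le_div_iff_mul_le (by omega)]
      rcases lt_or_gt_of_ne hne with h | h
      · have h1 : P ∣ z.2 - z.1 := (Nat.modEq_iff_dvd' h.le).1 hmod
        have h2 : l ∣ z.2 - z.1 := Nat.dvd_sub hly hlx
        have h3 : l * P ∣ z.2 - z.1 := hcop.mul_dvd_of_dvd_of_dvd h2 h1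
        exact (Nat.le_of_dvd (by omega) h3).trans (by omega)
      · have h1 : P ∣ z.1 - z.2 := (Nat.modEq_iff_dvd' h.le).1 hmod.symm
        have h2 : l ∣ z.1 - z.2 := Nat.dvd_sub hlx hly
        have h3 : l * P ∣ z.1 - z.2 := hcop.mul_dvd_of_dvd_of_dvd h2 h1
        exact (Nat.le_of_dvd (by omega) h3).trans (by omega)
    rw [mem_biUnion]
    refine ⟨l, mem_Ioc.2 ⟨hlW, hlA⟩, ?_⟩
    rw [if_pos hcop, mem_product, mem_filter, mem_filter]
    exact ⟨⟨hx, hlx⟩, hy, hly⟩
  have hcard : ∀ l ∈ Ioc W (A / P), ((#(if Nat.Coprime l P then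
      {x ∈ F | l ∣ x} ×ˢ {x ∈ F | l ∣ x} else ∅ : Finset (ℕ × ℕ)) : ℕ) : ℝ)
      ≤ 4 * ((A : ℝ) / P) ^ 2 * ((l : ℝ) ^ 2)⁻¹ := by
    intro l hl
    rw [mem_Ioc] at hl
    have hl0 : (0 : ℝ) < l := by exact_mod_cast (by omega : 0 < l)
    split_ifs with hcop
    · rw [card_product]
      have h1 : #{x ∈ F | l ∣ x} ≤ A / (P * l) + 1 := by
        refine nc_card_le _ A A (P * l) (Nat.mul_pos (by omega) (by omega)) ?_ ?_
        · intro x hx
          rw [mem_filter, hF] at hx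
          have hx1 := hx.1
          unfold fam at hx1
          rw [mem_filter, mem_Ioc] at hx1
          rw [mem_Ioc]
          omega
        · intro x hx y hy
          rw [mem_filter, hF] at hx hy
          have hx1 := hx.1
          have hy1 := hy.1
          unfold fam at hx1 hy1
          rw [mem_filter] at hx1 hy1
          have hm1 : x ≡ y [MOD P] := by
            show x % P = y % P
            rw [hx1.2, hy1.2]
          have hm2 : x ≡ y [MOD l] :=
            ((Nat.modEq_zero_iff_dvd.2 hx.2).trans (Nat.modEq_zero_iff_dvd.2 hy.2).symm)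
          exact (Nat.modEq_and_modEq_iff_modEq_mul hcop.symm).1 ⟨hm1, hm2⟩
      have h2 : ((#{x ∈ F | l ∣ x} : ℕ) : ℝ) ≤ 2 * ((A : ℝ) / P) / l := by
        have h3 : ((#{x ∈ F | l ∣ x} : ℕ) : ℝ) ≤ ((A / (P * l) : ℕ) : ℝ) + 1 := by
          exact_mod_cast h1
        have h4 : ((A / (P * l) : ℕ) : ℝ) ≤ (A : ℝ) / (P * l) := by
          have := @Nat.cast_div_le ℝ _ _ _ A (P * l)
          push_cast at this
          exact this
        have h5 : (1 : ℝ) ≤ (A : ℝ) / (P * l) := by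
          rw [le_div_iff₀ (by positivity), one_mul]
          have h6 : l * P ≤ A := (Nat.le_div_iff_mul_le (by omega)).1 hl.2
          have h7 : ((l * P : ℕ) : ℝ) ≤ A := by exact_mod_cast h6
          push_cast at h7
          linarith
        have h6 : 2 * ((A : ℝ) / P) / l = 2 * ((A : ℝ) / (P * l)) := by
          field_simp
        rw [h6]
        linarith
      push_cast
      calc ((#{x ∈ F | l ∣ x} : ℕ) : ℝ) * ((#{x ∈ F | l ∣ x} : ℕ) : ℝ)
          ≤ (2 * ((A : ℝ) / P) / l) * (2 * ((A : ℝ) / P) / l) := by gcongr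
        _ = 4 * ((A : ℝ) / P) ^ 2 * ((l : ℝ) ^ 2)⁻¹ := by
          field_simp
          ring
    · rw [card_empty]
      push_cast
      positivity
  have h1 : (#{z ∈ F ×ˢ F | z.1 ≠ z.2 ∧ ¬ Nat.Coprime z.1 z.2} : ℝ)
      ≤ ∑ l ∈ Ioc W (A / P), 4 * ((A : ℝ) / P) ^ 2 * ((l : ℝ) ^ 2)⁻¹ := by
    refine le_trans ?_ (sum_le_sum hcard)
    exact_mod_cast (card_le_card hsub).trans card_biUnion_le
  refine h1.trans ?_
  rw [← mul_sum]
  have h2 : ∑ l ∈ Ioc W (A / P), ((l : ℝ) ^ 2)⁻¹ ≤ 1 / W := by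
    rcases Nat.lt_or_ge (A / P) W with h | h
    · rw [Ioc_eq_empty (by omega), sum_empty]; positivity
    · have h3 := sum_Ioc_inv_sq_le_sub (α := ℝ) (by omega : W ≠ 0) h
      have h4 : (0 : ℝ) ≤ ((A / P : ℕ) : ℝ)⁻¹ := by positivity
      rw [one_div]
      linarith
  have h3 := nc_card_fam_real A P hP2 hA
  rw [← hF] at h3
  have h4 : (A : ℝ) / P ≤ 2 * #F := by
    have : (A : ℝ) / P = 2 * (A / (2 * P)) := by field_simp
    rw [this]; linarith
  have h5 : 0 ≤ (A : ℝ) / P := by positivity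
  calc 4 * ((A : ℝ) / P) ^ 2 * ∑ l ∈ Ioc W (A / P), ((l : ℝ) ^ 2)⁻¹
      ≤ 4 * (2 * (#F : ℝ)) ^ 2 * (1 / W) := by gcongr
    _ = 16 * (#F : ℝ) ^ 2 / W := by ring

open Classical in
lemma nc_fiber {k : ℕ} (F : Finset ℕ) (i j : Fin k) (hij : i ≠ j) (x y : ℕ) :
    #{a ∈ Fintype.piFinset fun _ : Fin k => F | a i = x ∧ a j = y} ≤ #F ^ (k - 2) := by
  have h1 : {a ∈ Fintype.piFinset fun _ : Fin k => F | a i = x ∧ a j = y}
      ⊆ Fintype.piFinset fun m : Fin k => if m = i ∨ m = j then ({a ∈ ({x, y} : Finset ℕ) |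
        (m = i → a = x) ∧ (m = j → a = y)} : Finset ℕ) else F := by
    intro a ha
    rw [mem_filter, Fintype.mem_piFinset] at ha
    rw [Fintype.mem_piFinset]
    intro m
    split_ifs with h
    · rw [mem_filter, mem_insert, mem_singleton]
      rcases h with rfl | rfl
      · exact ⟨Or.inl ha.2.1, fun _ => ha.2.1, fun h => absurd h hij⟩
      · exact ⟨Or.inr ha.2.2, fun h => absurd h hij.symm, fun _ => ha.2.2⟩
    · exact ha.1 m
  refine (card_le_card h1).trans ?_
  rw [Fintype.card_piFinset]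
  have h2 : ∀ m ∈ (univ : Finset (Fin k)), #(if m = i ∨ m = j then ({a ∈ ({x, y} : Finset ℕ) |
        (m = i → a = x) ∧ (m = j → a = y)} : Finset ℕ) else F)
        ≤ if m = i ∨ m = j then 1 else #F := by
    intro m _
    split_ifs with h
    · rw [card_le_one]
      intro a ha b hb
      rw [mem_filter] at ha hb
      rcases h with h | h
      · rw [ha.2.1 h, hb.2.1 h]
      · rw [ha.2.2 h, hb.2.2 h]
    · exact le_rfl
  refine (prod_le_prod (fun _ _ => Nat.zero_le _) h2).trans ?_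
  rw [prod_ite, prod_const_one, one_mul, prod_const]
  have h3 : #{m : Fin k | ¬ (m = i ∨ m = j)} = k - 2 := by
    have h4 : ({m : Fin k | ¬ (m = i ∨ m = j)} : Finset (Fin k)) = univ \ {i, j} := by
      ext m
      simp
    rw [h4, card_sdiff_of_subset (subset_univ _), card_univ, Fintype.card_fin,
      card_pair hij]
  rw [h3]

open Classical in
theorem noncoprime (k W P : ℕ) (hW : 1 ≤ W) (hP : ∀ p, p.Prime → p ≤ W → p ∣ P) (hP0 : 0 < P) :
    ∃ A₁ : ℕ, ∀ A ≥ A₁,
    (#{a ∈ Fintype.piFinset fun _ : Fin k => fam A P |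
      Function.Injective a ∧ ¬ ∀ i j, i ≠ j → Nat.Coprime (a i) (a j)} : ℝ)
      ≤ 16 * k ^ 2 * (#(fam A P) : ℝ) ^ k / W := by
  have hW0 : (0 : ℝ) < W := by exact_mod_cast (by omega : 0 < W)
  refine ⟨4 * P, fun A hA => ?_⟩
  set F := fam A P with hF
  set B := {z ∈ F ×ˢ F | z.1 ≠ z.2 ∧ ¬ Nat.Coprime z.1 z.2} with hB
  have hsub : {a ∈ Fintype.piFinset fun _ : Fin k => F |
      Function.Injective a ∧ ¬ ∀ i j, i ≠ j → Nat.Coprime (a i) (a j)}
      ⊆ ((univ : Finset (Fin k × Fin k)).filter (fun p => p.1 ≠ p.2)).biUnion fun p =>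
        B.biUnion fun z => {a ∈ Fintype.piFinset fun _ : Fin k => F |
          a p.1 = z.1 ∧ a p.2 = z.2} := by
    intro a ha
    rw [mem_filter] at ha
    obtain ⟨ha1, hinj, hn⟩ := ha
    push Not at hn
    obtain ⟨i, j, hij, hnc⟩ := hn
    rw [mem_biUnion]
    refine ⟨(i, j), by rw [mem_filter]; exact ⟨mem_univ _, hij⟩, ?_⟩
    rw [mem_biUnion]
    rw [Fintype.mem_piFinset] at ha1
    refine ⟨(a i, a j), ?_, ?_⟩
    · rw [hB, mem_filter, mem_product]
      exact ⟨⟨ha1 i, ha1 j⟩, fun h => hij (hinj h), hnc⟩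
    · rw [mem_filter, Fintype.mem_piFinset]
      exact ⟨ha1, rfl, rfl⟩
  have hN : #{a ∈ Fintype.piFinset fun _ : Fin k => F |
      Function.Injective a ∧ ¬ ∀ i j, i ≠ j → Nat.Coprime (a i) (a j)}
      ≤ #((univ : Finset (Fin k × Fin k)).filter (fun p => p.1 ≠ p.2)) * (#B * #F ^ (k - 2)) := by
    refine (card_le_card hsub).trans (card_biUnion_le_card_mul _ _ _ ?_)
    intro p hp
    rw [mem_filter] at hp
    refine card_biUnion_le_card_mul _ _ _ ?_
    intro z _
    exact nc_fiber F p.1 p.2 hp.2 z.1 z.2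
  rcases Nat.lt_or_ge k 2 with hk | hk
  · have h0 : #((univ : Finset (Fin k × Fin k)).filter (fun p => p.1 ≠ p.2)) = 0 := by
      rw [card_eq_zero, filter_eq_empty_iff]
      intro p _ h
      apply h
      apply Fin.ext
      have := p.1.isLt
      have := p.2.isLt
      omega
    rw [h0, zero_mul, Nat.le_zero] at hN
    rw [hN]
    push_cast
    positivity
  rcases Nat.lt_or_ge P 2 with hP2 | hP2
  · have hFe : F = ∅ := by
      rw [hF]
      unfold fam
      rw [filter_eq_empty_iff]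
      intro x _ h
      have : P = 1 := by omega
      rw [this, Nat.mod_one] at h
      exact absurd h (by norm_num)
    have hBe : #B = 0 := by
      rw [hB, hFe]
      simp
    rw [hBe, zero_mul, mul_zero, Nat.le_zero] at hN
    rw [hN]
    push_cast
    positivity
  have hBr := nc_pairs W P A hW hP hP2 hA
  rw [← hF] at hBr
  rw [← hB] at hBr
  have h1 : #((univ : Finset (Fin k × Fin k)).filter (fun p => p.1 ≠ p.2)) ≤ k ^ 2 := by
    refine (card_filter_le _ _).trans (le_of_eq ?_)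
    rw [card_univ, Fintype.card_prod, Fintype.card_fin]
    ring
  have h2 : (#{a ∈ Fintype.piFinset fun _ : Fin k => F |
      Function.Injective a ∧ ¬ ∀ i j, i ≠ j → Nat.Coprime (a i) (a j)} : ℝ)
      ≤ (k : ℝ) ^ 2 * ((#B : ℝ) * (#F : ℝ) ^ (k - 2)) := by
    have h3 := hN.trans (Nat.mul_le_mul_right _ h1)
    exact_mod_cast h3
  refine h2.trans ?_
  calc (k : ℝ) ^ 2 * ((#B : ℝ) * (#F : ℝ) ^ (k - 2))
      ≤ (k : ℝ) ^ 2 * ((16 * (#F : ℝ) ^ 2 / W) * (#F : ℝ) ^ (k - 2)) := by gcongr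
    _ = 16 * k ^ 2 * (#F : ℝ) ^ k / W := by
      have h4 : (#F : ℝ) ^ k = (#F : ℝ) ^ 2 * (#F : ℝ) ^ (k - 2) := by
        rw [← pow_add]
        congr 1
        omega
      rw [h4]
      ring

open Pool.Agent.helper35.LinPrimes (h) in
theorem h_primorial (C : ℝ) (E : ℕ) : ∃ W₀ : ℕ, ∀ W ≥ W₀,
    C * h (∏ p ∈ Nat.primesLE W, p) ^ E ≤ Real.sqrt W := by
  set C' : ℝ := |C| * Real.exp 16 ^ E * 2 ^ (4 * E) with hC'
  have h1 : ∀ᶠ x : ℝ in Filter.atTop, C' * Real.log x ^ (4 * E) ≤ x := by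
    have h2 := (Real.isLittleO_pow_log_id_atTop (n := 4 * E)).const_mul_left C'
    have h3 := h2.bound (show (0 : ℝ) < 1 by norm_num)
    filter_upwards [h3, Filter.eventually_ge_atTop (0 : ℝ)] with x hx hx0
    rw [one_mul, id, Real.norm_of_nonneg hx0] at hx
    exact (le_abs_self _).trans hx
  have h4 : Filter.Tendsto (fun W : ℕ => Real.sqrt W) Filter.atTop Filter.atTop :=
    Real.tendsto_sqrt_atTop.comp tendsto_natCast_atTop_atTop
  obtain ⟨W₀, hW₀⟩ := Filter.eventually_atTop.1 (h4.eventually h1)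
  refine ⟨max W₀ 3, fun W hW => ?_⟩
  have hW1 : W₀ ≤ W := le_of_max_le_left hW
  have hW3 : 3 ≤ W := le_of_max_le_right hW
  have hWr : (3 : ℝ) ≤ W := by exact_mod_cast hW3
  refine le_trans ?_ (hW₀ W hW1)
  have hlog : 0 < Real.log W := Real.log_pos (by linarith)
  have hh : h (∏ p ∈ Nat.primesLE W, p) ≤ Real.exp 16 * Real.log W ^ 4 := by
    unfold Pool.Agent.helper35.LinPrimes.h
    rw [Nat.primeFactors_prod (fun p hp => (Nat.mem_primesLE.mp hp).2)]
    have h5 : ∀ p ∈ Nat.primesLE W, (1 - 1 / (p : ℝ))⁻¹ ≤ Real.exp (4 * (1 / (p : ℝ))) := by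
      intro p hp
      have hp2 := (Nat.mem_primesLE.mp hp).2.two_le
      have hp2' : (2 : ℝ) ≤ p := by exact_mod_cast hp2
      refine Pool.Agent.Lib.PrimeSums.inv_one_sub_le_exp (by positivity) ?_
      have : 1 / (p : ℝ) ≤ 1 / 2 := one_div_le_one_div_of_le (by norm_num) hp2'
      linarith
    have h6 : ∀ p ∈ Nat.primesLE W, 0 ≤ (1 - 1 / (p : ℝ))⁻¹ := fun p hp =>
      zero_le_one.trans (Pool.Agent.helper35.LinPrimes.one_le_inv (Nat.mem_primesLE.mp hp).2)
    refine (prod_le_prod h6 h5).trans ?_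
    rw [← Real.exp_sum, ← mul_sum]
    have h7 := Pool.Agent.Lib.PrimeSums.sum_inv_le W (by omega)
    calc Real.exp (4 * ∑ p ∈ Nat.primesLE W, 1 / (p : ℝ))
        ≤ Real.exp (4 * (Real.log (Real.log W) + 4)) := Real.exp_le_exp.2 (by linarith)
      _ = Real.exp 16 * Real.log W ^ 4 := by
        have e1 : 4 * (Real.log (Real.log W) + 4) = 16 + (4 : ℕ) * Real.log (Real.log W) := by
          push_cast; ring
        rw [e1, Real.exp_add, Real.exp_nat_mul, Real.exp_log hlog]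
  have hh0 : 0 ≤ h (∏ p ∈ Nat.primesLE W, p) := (Pool.Agent.helper35.LinPrimes.h_pos _).le
  have hs : Real.log (Real.sqrt W) = Real.log W / 2 := by
    rw [Real.log_sqrt (by positivity)]
  rw [hs]
  calc C * h (∏ p ∈ Nat.primesLE W, p) ^ E ≤ |C| * (Real.exp 16 * Real.log W ^ 4) ^ E := by
        gcongr
        exact le_abs_self C
    _ = C' * (Real.log W / 2) ^ (4 * E) := by
        rw [hC', mul_pow, ← pow_mul, div_pow]
        field_simp

end Pool.Agent.helper96.Slope
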